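import Pool.Agent.Q122.DetNS.CaseB

/-!
# At most two minimal generators divide `T`: then `T` has a unique factorization

`T` and `β` are `h` and `α`, or `h + n α` and `-α`.
-/

open MvPolynomial

namespace Q122.DetNS

/-- The common properties of `(h, α)` and `(h + n α, -α)`. -/
structure SideData {n : ℕ} (a : Fin n → ℕ) (T β : ℤ) : Prop where
  dual : ∀ u, InH a u → ¬ InH a (u + β) → InH a (T - u)
  not_mem : ∀ r : ℕ, 1 ≤ r → r < n → ¬ InH a (T + r * β)
  ne_zero : ∀ u, InH a u → 0 < u → u + β ≠ 0
  mem : InH a T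

section

variable {n : ℕ} {a : Fin n → ℕ} {T β : ℤ}

theorem InH.sub_of_pos {v : Fin n → ℕ} {i : Fin n} (hi : 1 ≤ v i) :
    InH a (∑ j, (v j : ℤ) * a j - a i) := by
  classical
  refine ⟨fun x => v x - (if x = i then 1 else 0), ?_⟩
  have : ∀ x, ((v x - (if x = i then 1 else 0) : ℕ) : ℤ) * a x =
      (v x : ℤ) * a x - (if x = i then (a i : ℤ) else 0) := by
    intro x
    by_cases hx : x = i
    · subst hx; simp only [if_true]; push_cast [hi]; ring
    · simp [hx]
  simp only [this, Finset.sum_sub_distrib]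
  simp

/-- An element `u` dividing `T` has `u + r β ∉ H` for `1 ≤ r < n`. -/
theorem SideData.no_return (hS : SideData a T β) {u : ℤ} (hu : InH a (T - u)) {r : ℕ}
    (h1 : 1 ≤ r) (h2 : r < n) (hr : InH a (u + r * β)) : False := by
  apply hS.not_mem r h1 h2
  have e : T + r * β = (T - u) + (u + r * β) := by ring
  rw [e]
  exact hu.add hr

/-- The walk argument. -/
theorem SideData.walk (hS : SideData a T β) (hn : 3 ≤ n) (hpos : ∀ i, 0 < a i)
    {p q : Fin n} (hpq : p ≠ q) (hsupp : ∀ i, InH a (T - a i) → i = p ∨ i = q)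
    {f : ℤ} (hf : InH a f) (hf0 : 0 < f) (hfh : ¬ InH a (T - f))
    (hfp : InH a (T - (f - a p))) (hfq : InH a (T - (f - a q))) : False := by
  classical
  have hfβ : InH a (f + β) := by
    by_contra hc
    exact hfh (hS.dual _ hf hc)
  obtain ⟨k0, hk0⟩ := exists_sub hfβ (hS.ne_zero f hf hf0)
  have hg1 : ∀ i : Fin n, ∃ j, (i ≠ p ∧ i ≠ q) → InH a (a i + β - a j) := by
    intro i
    by_cases hi : i ≠ p ∧ i ≠ q
    · have h1 : InH a ((a i : ℤ) + β) := by
        by_contra hc
        rcases hsupp i (hS.dual _ (InH.gen i) hc) with h2 | h2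
        · exact hi.1 h2
        · exact hi.2 h2
      obtain ⟨j, hj⟩ := exists_sub h1 (hS.ne_zero _ (InH.gen i) (by exact_mod_cast hpos i))
      exact ⟨j, fun _ => hj⟩
    · exact ⟨i, fun h => absurd h hi⟩
  choose g hgg using hg1
  let K : ℕ → Fin n := fun s => g^[s] k0
  have hK : ∀ s, K (s + 1) = g (K s) := by
    intro s
    simp only [K, Function.iterate_succ', Function.comp_apply]
  have hw : ∀ s e, (∀ s' < e, K (s + s') ≠ p ∧ K (s + s') ≠ q) →
      InH a (a (K s) + e * β - a (K (s + e))) := by
    intro s e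
    induction e with
    | zero => intro _; simpa using InH.zero
    | succ e ih =>
      intro h1
      have h2 := ih (fun s' hs' => h1 s' (by omega))
      have h3 := hgg (K (s + e)) (h1 e (by omega))
      rw [← hK] at h3
      have h4 := h2.add h3
      have e1 : (a (K s) : ℤ) + ((e + 1 : ℕ) : ℤ) * β - a (K (s + (e + 1))) =
          a (K s) + e * β - a (K (s + e)) + (a (K (s + e)) + β - a (K (s + e + 1))) := by
        push_cast
        rw [← add_assoc s e 1]
        ring
      rw [e1]
      exact h4
  have hw0 : ∀ s, (∀ s' < s, K s' ≠ p ∧ K s' ≠ q) →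
      InH a (f + (s + 1 : ℕ) * β - a (K s)) := by
    intro s h1
    have h2 := hw 0 s (by simpa using h1)
    have h3 := hk0.add h2
    have e1 : f + ((s + 1 : ℕ) : ℤ) * β - a (K s) =
        f + β - a k0 + (a (K 0) + s * β - a (K (0 + s))) := by
      have : K 0 = k0 := rfl
      rw [this, zero_add]
      push_cast
      ring
    rw [e1]
    exact h3
  by_cases hex : ∃ s, s ≤ n - 2 ∧ (K s = p ∨ K s = q)
  · have hs := Nat.find_spec hex
    have hmin : ∀ s' < Nat.find hex, K s' ≠ p ∧ K s' ≠ q := by
      intro s' hs'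
      have h1 := Nat.find_min hex hs'
      have h2 : s' ≤ n - 2 := by omega
      constructor
      · intro h3; exact h1 ⟨h2, Or.inl h3⟩
      · intro h3; exact h1 ⟨h2, Or.inr h3⟩
    have h1 := hw0 _ hmin
    rcases hs.2 with h2 | h2
    · rw [h2] at h1
      refine hS.no_return hfp (r := Nat.find hex + 1) (by omega) (by omega) ?_
      have e1 : f - a p + ((Nat.find hex + 1 : ℕ) : ℤ) * β =
          f + ((Nat.find hex + 1 : ℕ) : ℤ) * β - a p := by ring
      rw [e1]; exact h1
    · rw [h2] at h1
      refine hS.no_return hfq (r := Nat.find hex + 1) (by omega) (by omega) ?_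
      have e1 : f - a q + ((Nat.find hex + 1 : ℕ) : ℤ) * β =
          f + ((Nat.find hex + 1 : ℕ) : ℤ) * β - a q := by ring
      rw [e1]; exact h1
  · push Not at hex
    have hcard : ((Finset.univ.erase p).erase q).card < (Finset.range (n - 1)).card := by
      rw [Finset.card_erase_of_mem (by simp [hpq.symm]), Finset.card_erase_of_mem (by simp)]
      simp
      omega
    obtain ⟨s, hs, s', hs', hne, heq⟩ :=
      Finset.exists_ne_map_eq_of_card_lt_of_maps_to hcard (f := K) (by
        intro s hs
        have h1 : s ≤ n - 2 := by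
          have := Finset.mem_range.mp (Finset.mem_coe.mp hs)
          omega
        have h2 := hex s h1
        simp [h2.1, h2.2])
    have key : ∀ s s' : ℕ, s < s' → s' < n - 1 → K s = K s' → False := by
      intro s s' hlt hs' heq
      have h1 := hw s (s' - s) (by
        intro e he
        have := hex (s + e) (by omega)
        exact this)
      rw [show s + (s' - s) = s' by omega, ← heq] at h1
      refine hS.no_return (u := 0) (by simpa using hS.mem) (r := s' - s) (by omega)
        (by omega) ?_
      have e1 : (0 : ℤ) + ((s' - s : ℕ) : ℤ) * β =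
          a (K s) + ((s' - s : ℕ) : ℤ) * β - a (K s) := by ring
      rw [e1]
      exact h1
    rw [Finset.mem_range] at hs hs'
    rcases lt_or_gt_of_ne hne with hlt | hlt
    · exact key s s' hlt hs' heq
    · exact key s' s hlt hs heq.symm

theorem SideData.unique_two (hS : SideData a T β) (hn : 3 ≤ n) (hpos : ∀ i, 0 < a i)
    {p q : Fin n} (hpq : p ≠ q)
    (hsupp : ∀ i, InH a (T - a i) → i = p ∨ i = q) :
    ∃! v : Fin n → ℕ, T = ∑ i, (v i : ℤ) * a i := by
  classical
  have hap : (0 : ℤ) < a p := by exact_mod_cast hpos p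
  have haq : (0 : ℤ) < a q := by exact_mod_cast hpos q
  -- factorizations are supported in `{p, q}`
  have hz : ∀ v : Fin n → ℕ, T = ∑ i, (v i : ℤ) * a i → ∀ i, i ≠ p ∧ i ≠ q → v i = 0 := by
    intro v hv i hi
    by_contra hc
    have h1 := InH.sub_of_pos (a := a) (v := v) (i := i) (Nat.one_le_iff_ne_zero.mpr hc)
    rw [← hv] at h1
    rcases hsupp i h1 with h2 | h2
    · exact hi.1 h2
    · exact hi.2 h2
  have hsum : ∀ v : Fin n → ℕ, T = ∑ i, (v i : ℤ) * a i →
      T = (v p : ℤ) * a p + (v q : ℤ) * a q := by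
    intro v hv
    conv_lhs => rw [hv]
    refine Fintype.sum_eq_add p q hpq ?_
    intro x hx
    rw [hz v hv x hx]
    simp
  obtain ⟨v0, hv0⟩ := hS.mem
  refine ⟨v0, hv0, ?_⟩
  by_contra hcon
  push Not at hcon
  obtain ⟨w0, hw0, hne⟩ := hcon
  have hp : w0 p ≠ v0 p := by
    intro heq
    apply hne
    have h1 := hsum _ hw0
    have h2 := hsum _ hv0
    rw [heq] at h1
    have h3 : (w0 q : ℤ) * a q = (v0 q : ℤ) * a q := by linarith
    have h4 : (w0 q : ℤ) = v0 q := mul_right_cancel₀ (ne_of_gt haq) h3
    have h5 : w0 q = v0 q := by exact_mod_cast h4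
    funext i
    by_cases hi : i = p
    · rw [hi]; exact heq
    by_cases hi2 : i = q
    · rw [hi2]; exact h5
    rw [hz _ hw0 i ⟨hi, hi2⟩, hz _ hv0 i ⟨hi, hi2⟩]
  have hexd : ∃ d : ℕ, ∃ v w : Fin n → ℕ, T = ∑ i, (v i : ℤ) * a i ∧ T = ∑ i, (w i : ℤ) * a i ∧
      v p = w p + (d + 1) := by
    rcases lt_or_gt_of_ne hp with h1 | h1
    · exact ⟨v0 p - w0 p - 1, v0, w0, hv0, hw0, by omega⟩
    · exact ⟨w0 p - v0 p - 1, w0, v0, hw0, hv0, by omega⟩
  obtain ⟨v, w, hv, hw, hd⟩ := Nat.find_spec hexd
  have hvs := hsum v hv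
  have hws := hsum w hw
  have hq : v q < w q := by
    by_contra hc
    push Not at hc
    have h1 : (w q : ℤ) * a q ≤ (v q : ℤ) * a q := by
      refine mul_le_mul_of_nonneg_right (by exact_mod_cast hc) haq.le
    have h2 : (v p : ℤ) = w p + (Nat.find hexd + 1) := by exact_mod_cast hd
    have h3 : (v p : ℤ) * a p = (w p : ℤ) * a p + (Nat.find hexd + 1) * a p := by rw [h2]; ring
    have h4 : (0 : ℤ) < (Nat.find hexd + 1) * a p := by positivity
    linarith
  set f : ℤ := ((w p + 1 : ℕ) : ℤ) * a p + ((v q + 1 : ℕ) : ℤ) * a q with hfdef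
  refine hS.walk hn hpos hpq hsupp (f := f) ?_ ?_ ?_ ?_ ?_
  · exact (InH.smul _ _).add (InH.smul _ _)
  · positivity
  · rintro ⟨z, hzz⟩
    have h1 : T = ∑ j, ((z j + ((if j = p then w p + 1 else 0) + (if j = q then v q + 1 else 0)) : ℕ) : ℤ) * a j := by
      have e1 : ∀ j, ((z j + ((if j = p then w p + 1 else 0) + (if j = q then v q + 1 else 0)) : ℕ) : ℤ) * a j =
          (z j : ℤ) * a j + ((if j = p then ((w p + 1 : ℕ) : ℤ) * a p else 0) +
            (if j = q then ((v q + 1 : ℕ) : ℤ) * a q else 0)) := by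
        intro j
        by_cases hj : j = p
        · subst hj
          simp only [if_true, if_neg hpq, add_zero]
          push_cast; ring
        · by_cases hj2 : j = q
          · subst hj2
            simp only [if_true, if_neg hj, zero_add]
            push_cast; ring
          · simp [hj, hj2]
      simp only [e1, Finset.sum_add_distrib]
      simp only [Finset.sum_ite_eq', Finset.mem_univ, if_true]
      rw [← hzz, hfdef]
      ring
    set v' : Fin n → ℕ := fun j => z j + ((if j = p then w p + 1 else 0) + (if j = q then v q + 1 else 0)) with hv'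
    have h2 := hsum v' h1
    have h3 : w p + 1 ≤ v' p := by
      simp only [hv', if_true]; omega
    have h4 : v q + 1 ≤ v' q := by
      simp only [hv', if_true]; omega
    have h5 : v' p < v p := by
      by_contra hc
      push Not at hc
      have h6 : (v p : ℤ) * a p ≤ (v' p : ℤ) * a p :=
        mul_le_mul_of_nonneg_right (by exact_mod_cast hc) hap.le
      have h7 : (v q : ℤ) * a q < (v' q : ℤ) * a q :=
        mul_lt_mul_of_pos_right (by exact_mod_cast h4) haq
      linarith
    have h6 : v' p - w p - 1 < Nat.find hexd := by omega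
    exact Nat.find_min hexd h6 ⟨v', w, h1, hw, by omega⟩
  · have e1 : T - (f - a p) = ((w q - (v q + 1) : ℕ) : ℤ) * a q := by
      rw [hfdef, hws]
      push_cast [show v q + 1 ≤ w q by omega]
      ring
    rw [e1]
    exact InH.smul _ _
  · have e1 : T - (f - a q) = ((v p - (w p + 1) : ℕ) : ℤ) * a p := by
      rw [hfdef]
      conv_lhs => rw [hvs]
      push_cast [show w p + 1 ≤ v p by omega]
      ring
    rw [e1]
    exact InH.smul _ _


/-- Bijectivity of the choice of the next generator, from uniqueness. -/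
theorem SideData.rels (hS : SideData a T β) (hn : 3 ≤ n) (hpos : ∀ i, 0 < a i)
    {v : Fin n → ℕ} (hv : T = ∑ i, (v i : ℤ) * a i)
    (hv2 : ∀ w : Fin n → ℕ, T = ∑ i, (w i : ℤ) * a i → w = v) :
    ∃ (π : Equiv.Perm (Fin n)) (y : Fin n → ℕ), (∀ i, 0 < y i) ∧
      ∀ i, ((v i + 1 : ℕ) : ℤ) * a i + β = (y i : ℤ) * a (π i) := by
  classical
  -- `m_i a_i + β ∈ H`
  have h1 : ∀ i, InH a (((v i + 1 : ℕ) : ℤ) * a i + β) := by
    intro i
    by_contra hcon
    obtain ⟨w, hw⟩ := hS.dual _ (InH.smul (v i + 1) i) hcon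
    have h2 : T = ∑ j, ((w j + (if j = i then v i + 1 else 0) : ℕ) : ℤ) * a j := by
      have e1 : ∑ j, ((w j + (if j = i then v i + 1 else 0) : ℕ) : ℤ) * a j =
          ∑ j, (w j : ℤ) * a j + ((v i + 1 : ℕ) : ℤ) * a i := by
        have : ∀ j, ((w j + (if j = i then v i + 1 else 0) : ℕ) : ℤ) * a j =
            (w j : ℤ) * a j + (if j = i then ((v i + 1 : ℕ) : ℤ) * a i else 0) := by
          intro j
          by_cases hj : j = i
          · subst hj; simp; ring
          · simp [hj]
        simp only [this, Finset.sum_add_distrib]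
        simp
      rw [e1, ← hw]; ring
    have h3 := hv2 (fun j => w j + (if j = i then v i + 1 else 0)) h2
    have h4 := congrFun h3 i
    simp at h4
    omega
  choose y hy using h1
  -- partial sums
  have h2 : ∀ (F : Finset (Fin n)) (r : ℕ), 1 ≤ r → r < n →
      ¬ InH a (∑ i ∈ F, (v i : ℤ) * a i + r * β) := by
    intro F r hr1 hr2 hcon
    apply hS.not_mem r hr1 hr2
    have e : T + r * β = (∑ i ∈ F, (v i : ℤ) * a i + r * β) + ∑ i ∈ Fᶜ, (v i : ℤ) * a i := by
      rw [hv]
      have := Finset.sum_add_sum_compl F (fun i => (v i : ℤ) * a i)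
      linarith
    rw [e]
    exact hcon.add (InH.sum _ _ (fun i _ => InH.smul _ _))
  -- subtraction of a generator
  have h3 : ∀ i j, 1 ≤ y i j → InH a (((v i + 1 : ℕ) : ℤ) * a i + β - a j) := by
    intro i j hij
    rw [hy i]
    refine ⟨fun x => y i x - (if x = j then 1 else 0), ?_⟩
    have : ∀ x, ((y i x - (if x = j then 1 else 0) : ℕ) : ℤ) * a x =
        (y i x : ℤ) * a x - (if x = j then (a j : ℤ) else 0) := by
      intro x
      by_cases hx : x = j
      · subst hx; simp only [if_true]; push_cast [hij]; ring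
      · simp [hx]
    simp only [this, Finset.sum_sub_distrib]
    simp
  -- every choice function is bijective
  have h4 : ∀ g : Fin n → Fin n, (∀ i, 1 ≤ y i (g i)) → Function.Bijective g := by
    intro g hgy
    set F : Finset (Fin n) := Finset.univ.filter (fun x => x ∈ Function.periodicPts g) with hF
    have hbij := Function.bijOn_periodicPts g
    obtain ⟨x0, hx0⟩ := exists_periodic (⟨0, by omega⟩ : Fin n) g
    have hFne : 1 ≤ F.card := by
      refine Finset.card_pos.mpr ⟨x0, ?_⟩
      simp [hF, hx0]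
    have hsum : ∑ i ∈ F, (a (g i) : ℤ) = ∑ i ∈ F, (a i : ℤ) := by
      refine Finset.sum_nbij g ?_ ?_ ?_ ?_
      · intro i hi
        simp only [hF, Finset.mem_filter, Finset.mem_univ, true_and] at hi ⊢
        exact hbij.mapsTo hi
      · intro i hi j hj hij
        simp only [hF, Finset.coe_filter, Finset.mem_univ, true_and, Set.mem_ofPred_eq] at hi hj
        exact hbij.injOn hi hj hij
      · intro j hj
        simp only [hF, Finset.coe_filter, Finset.mem_univ, true_and, Set.mem_ofPred_eq] at hj
        obtain ⟨i, hi, hij⟩ := hbij.surjOn hj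
        refine ⟨i, ?_, hij⟩
        simp only [hF, Finset.coe_filter, Finset.mem_univ, true_and, Set.mem_ofPred_eq]
        exact hi
      · intro i _; rfl
    have hH : InH a (∑ i ∈ F, (v i : ℤ) * a i + (F.card : ℤ) * β) := by
      have e : ∑ i ∈ F, (v i : ℤ) * a i + (F.card : ℤ) * β =
          ∑ i ∈ F, (((v i + 1 : ℕ) : ℤ) * a i + β - a (g i)) := by
        rw [Finset.sum_sub_distrib, Finset.sum_add_distrib, hsum]
        push_cast
        simp only [add_mul, Finset.sum_add_distrib, one_mul, Finset.sum_const, nsmul_eq_mul]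
        ring
      rw [e]
      exact InH.sum _ _ (fun i _ => h3 i (g i) (hgy i))
    have hcard : F = Finset.univ := by
      by_contra hne
      have hlt : F.card < n := by
        have := Finset.card_lt_card (Finset.ssubset_univ_iff.mpr hne)
        simpa using this
      exact h2 F F.card hFne hlt hH
    have hall : ∀ x, x ∈ Function.periodicPts g := by
      intro x
      have : x ∈ F := by rw [hcard]; exact Finset.mem_univ x
      simpa [hF] using this
    refine ⟨?_, ?_⟩
    · intro i j hij
      exact hbij.injOn (hall i) (hall j) hij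
    · intro j
      obtain ⟨i, _, hi⟩ := hbij.surjOn (hall j)
      exact ⟨i, hi⟩
  -- nonzero
  have h5 : ∀ i, ∃ j, 1 ≤ y i j := by
    intro i
    by_contra hcon
    push Not at hcon
    have : ∑ j, (y i j : ℤ) * a j = 0 := by
      refine Finset.sum_eq_zero ?_
      intro j _
      have := hcon j
      have h0 : y i j = 0 := by omega
      simp [h0]
    rw [← hy i] at this
    refine hS.ne_zero _ (InH.smul (v i + 1) i) ?_ this
    have := hpos i
    positivity
  choose g hgy using h5
  have hgb := h4 g hgy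
  let π : Equiv.Perm (Fin n) := Equiv.ofBijective g hgb
  have h6 : ∀ i j, 1 ≤ y i j → j = g i := by
    intro i j hij
    by_contra hne
    have hg' := h4 (Function.update g i j) (by
      intro x
      by_cases hx : x = i
      · subst hx; simpa using hij
      · simpa [Function.update_of_ne hx] using hgy x)
    obtain ⟨i', hi'⟩ := hgb.2 j
    have hne' : i' ≠ i := by
      rintro rfl
      exact hne hi'.symm
    have e1 : Function.update g i j i' = Function.update g i j i := by
      rw [Function.update_of_ne hne', Function.update_self, hi']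
    exact hne' (hg'.1 e1)
  have h7 : ∀ i, ((v i + 1 : ℕ) : ℤ) * a i + β = (y i (g i) : ℤ) * a (g i) := by
    intro i
    rw [hy i, Finset.sum_eq_single (g i)]
    · intro j _ hj
      have : ¬ 1 ≤ y i j := fun hh => hj (h6 i j hh)
      have h0 : y i j = 0 := by omega
      simp [h0]
    · simp
  exact ⟨π, fun i => y i (g i), fun i => hgy i, h7⟩

end

section ap

variable {n : ℕ} {a : Fin n → ℕ} {h α : ℤ}

theorem IsAP.side_up (hAP : IsAP a h α) (hn : 3 ≤ n) (hg : Finset.univ.gcd a = 1) :
    SideData a h α where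
  dual := fun _ hu hu2 => hAP.dual hg hu hu2
  not_mem := fun _ h1 h2 => hAP.not_mem h1 h2
  ne_zero := fun u _ hu => by have := hAP.1; omega
  mem := by
    have := hAP.dual hg (u := 0) InH.zero (by simpa using hAP.alpha_not hn)
    simpa using this

theorem IsAP.side_down (hAP : IsAP a h α) (hn : 3 ≤ n) (hg : Finset.univ.gcd a = 1) :
    SideData a (h + n * α) (-α) := by
  have hd : ∀ u, InH a u → ¬ InH a (u + -α) → InH a (h + n * α - u) := by
    intro u hu hu2
    obtain ⟨w, hw, hw2⟩ := exists_pf hg hu2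
    rw [hAP.2] at hw2
    obtain ⟨j, hj1, hj2, hj⟩ := hw2
    rcases Nat.lt_or_ge (j + 1) n with hj3 | hj3
    · exfalso
      apply hAP.not_mem (j := j + 1) (by omega) hj3
      have e : h + ((j + 1 : ℕ) : ℤ) * α = u + w := by push_cast; linarith
      rw [e]
      exact hu.add hw
    · have : (n : ℤ) = j + 1 := by omega
      have e : h + n * α - u = w := by rw [this]; linarith
      rw [e]; exact hw
  refine ⟨hd, ?_, ?_, ?_⟩
  · intro r h1 h2 hcon
    apply hAP.not_mem (j := n - r) (by omega) (by omega)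
    have e : h + ((n - r : ℕ) : ℤ) * α = h + n * α + r * -α := by
      push_cast [show r ≤ n by omega]; ring
    rw [e]; exact hcon
  · intro u hu hu0 hcon
    apply hAP.alpha_not hn
    have : α = u := by linarith
    rw [this]; exact hu
  · have := hd 0 InH.zero (by
      intro hcon
      have h1 := hcon.nonneg
      have h2 := hAP.1
      linarith)
    simpa using this

/-- Uniqueness of the factorization of `h + n α` gives condition (2). -/
theorem caseB_down (hn : 3 ≤ n) (ha : IsMinGen a) (hAP : IsAP a h α)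
    (huniq : ∃! v : Fin n → ℕ, h + n * α = ∑ i, (v i : ℤ) * a i)
    (k : Type*) [Field k] : Cond2 k a := by
  classical
  obtain ⟨hg, hmin⟩ := ha
  have hpos : ∀ i, 0 < a i := fun i => (hmin i).1
  obtain ⟨v, hv, hv2⟩ := huniq
  obtain ⟨π, y, hy, hrel⟩ := (hAP.side_down hn hg).rels hn hpos hv hv2
  refine finish (by omega) hpos hAP.1 (fun i => v i + 1) (fun j => y (π.symm j)) π.symm ?_ ?_ ?_ ?_
  · intro i; omega
  · intro i; exact hy _
  · intro i
    have h1 := hrel (π.symm i)
    rw [π.apply_symm_apply] at h1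
    linarith
  · have e0 : ∑ j, ((y (π.symm j) : ℕ) : ℤ) * a j = ∑ i, (y i : ℤ) * a (π i) := by
      rw [← Equiv.sum_comp π (fun j => ((y (π.symm j) : ℕ) : ℤ) * (a j : ℤ))]
      simp
    have e1 : ∑ i, (y i : ℤ) * (a (π i) : ℤ) = ∑ i, (((v i + 1 : ℕ) : ℤ) * a i + -α) := by
      refine Finset.sum_congr rfl ?_
      intro i _
      rw [hrel i]
    have e2 : ∑ i, (((v i + 1 : ℕ) : ℤ) * (a i : ℤ) + -α) = h + ∑ i, (a i : ℤ) := by
      have e3 : ∀ i, (((v i + 1 : ℕ) : ℤ) * (a i : ℤ) + -α) = (v i : ℤ) * a i + (a i + -α) := by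
        intro i; push_cast; ring
      simp only [e3, Finset.sum_add_distrib, ← hv, Finset.sum_const, Finset.card_univ,
        Fintype.card_fin, nsmul_eq_mul]
      ring
    have e4 : ∑ i, (((y (π.symm i) : ℕ) : ℤ) - 1) * (a i : ℤ) = h := by
      simp only [sub_mul, one_mul, Finset.sum_sub_distrib]
      rw [e0, e1, e2]
      ring
    rw [e4]
    exact hAP.not_mem (by omega) (by omega)

/-- At most two minimal generators divide `h`, or at most two divide `h + n α`. -/
theorem cond2_of_two (hn : 3 ≤ n) (ha : IsMinGen a) (hAP : IsAP a h α)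
    (h2 : (∃ p q : Fin n, ∀ i, InH a (h - a i) → i = p ∨ i = q) ∨
      (∃ p q : Fin n, ∀ i, InH a (h + n * α - a i) → i = p ∨ i = q))
    (k : Type*) [Field k] : Cond2 k a := by
  have hpos : ∀ i, 0 < a i := fun i => (ha.2 i).1
  -- we may take the two indices different
  have hdiff : ∀ T : ℤ, (∃ p q : Fin n, ∀ i, InH a (T - a i) → i = p ∨ i = q) →
      ∃ p q : Fin n, p ≠ q ∧ ∀ i, InH a (T - a i) → i = p ∨ i = q := by
    rintro T ⟨p, q, hpq⟩
    by_cases h1 : p = q
    · have : Nontrivial (Fin n) := Fin.nontrivial_iff_two_le.mpr (by omega)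
      obtain ⟨q', hq'⟩ := exists_ne p
      refine ⟨p, q', hq'.symm, ?_⟩
      intro i hi
      rcases hpq i hi with h3 | h3
      · exact Or.inl h3
      · exact Or.inl (h3.trans h1.symm)
    · exact ⟨p, q, h1, hpq⟩
  rcases h2 with h2 | h2
  · obtain ⟨p, q, hne, hs⟩ := hdiff _ h2
    exact caseB hn ha hAP ((hAP.side_up hn ha.1).unique_two hn hpos hne hs) k
  · obtain ⟨p, q, hne, hs⟩ := hdiff _ h2
    exact caseB_down hn ha hAP ((hAP.side_down hn ha.1).unique_two hn hpos hne hs) k

end ap

end Q122.DetNS
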